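import Pool.Agent.Q98.SPN.Stm

namespace Pool.Agent.U898.GSP.NUM

open Pool.Agent.Q98.SPN
open Finset

theorem geo2 (K : ℕ) : ∑ k ∈ range K, (1 : ℝ) / 2 ^ k = 2 - 2 / 2 ^ K := by
  induction K with
  | zero => norm_num
  | succ K ih =>
    rw [Finset.sum_range_succ, ih]
    have : (2 : ℝ) ^ K ≠ 0 := by positivity
    rw [pow_succ]
    field_simp
    ring

theorem geo16 (K : ℕ) : ∑ k ∈ range K, (1 : ℝ) / 16 ^ k = 16 / 15 - (16 / 15) / 16 ^ K := by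
  induction K with
  | zero => norm_num
  | succ K ih =>
    rw [Finset.sum_range_succ, ih]
    have : (16 : ℝ) ^ K ≠ 0 := by positivity
    rw [pow_succ]
    field_simp
    ring

theorem geo16k (K : ℕ) : ∑ k ∈ range K, (k : ℝ) / 16 ^ k =
    16 / 225 - (16 / 225 + 16 / 15 * (K : ℝ)) / 16 ^ K := by
  induction K with
  | zero => norm_num
  | succ K ih =>
    rw [Finset.sum_range_succ, ih]
    have : (16 : ℝ) ^ K ≠ 0 := by positivity
    rw [pow_succ]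
    push_cast
    field_simp
    ring

theorem key (κ : ℕ) (h : 2 ≤ κ) : 2 * (24.8 + 1.07 * (κ : ℝ)) ≤ 100 ^ κ / 100 := by
  induction κ, h using Nat.le_induction with
  | base => norm_num
  | succ n hn ih =>
    rw [pow_succ]
    push_cast
    have hn' : (2 : ℝ) ≤ n := by exact_mod_cast hn
    nlinarith [ih]

theorem t_NUM : S_NUM := by
  intro m κ K hκ
  have hm : (0 : ℝ) ≤ m := Nat.cast_nonneg m
  have hp : (0 : ℝ) < 100 ^ κ := by positivity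
  have e : ∑ k ∈ range K, ((m : ℝ) / (200 * 2 ^ k) + (m : ℝ) / 16 ^ k *
      (2 * (22.1 + 13.6 * k + κ) / 100 ^ κ)) =
      m / 200 * ∑ k ∈ range K, (1 : ℝ) / 2 ^ k +
      m * (2 * (22.1 + κ) / 100 ^ κ) * ∑ k ∈ range K, (1 : ℝ) / 16 ^ k +
      m * (2 * 13.6 / 100 ^ κ) * ∑ k ∈ range K, (k : ℝ) / 16 ^ k := by
    rw [Finset.mul_sum, Finset.mul_sum, Finset.mul_sum, ← Finset.sum_add_distrib,
      ← Finset.sum_add_distrib]
    refine Finset.sum_congr rfl fun k _ => ?_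
    have h2 : (2 : ℝ) ^ k ≠ 0 := by positivity
    have h16 : (16 : ℝ) ^ k ≠ 0 := by positivity
    field_simp
    ring
  rw [e]
  have a1 : ∑ k ∈ range K, (1 : ℝ) / 2 ^ k ≤ 2 := by
    rw [geo2]
    have : (0 : ℝ) ≤ 2 / 2 ^ K := by positivity
    linarith
  have a2 : ∑ k ∈ range K, (1 : ℝ) / 16 ^ k ≤ 16 / 15 := by
    rw [geo16]
    have : (0 : ℝ) ≤ (16 / 15) / 16 ^ K := by positivity
    linarith
  have a3 : ∑ k ∈ range K, (k : ℝ) / 16 ^ k ≤ 16 / 225 := by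
    rw [geo16k]
    have : (0 : ℝ) ≤ (16 / 225 + 16 / 15 * (K : ℝ)) / 16 ^ K := by positivity
    linarith
  have b1 : m / 200 * ∑ k ∈ range K, (1 : ℝ) / 2 ^ k ≤ (m : ℝ) / 200 * 2 :=
    mul_le_mul_of_nonneg_left a1 (by positivity)
  have b2 : m * (2 * (22.1 + κ) / 100 ^ κ) * ∑ k ∈ range K, (1 : ℝ) / 16 ^ k ≤
      (m : ℝ) * (2 * (22.1 + κ) / 100 ^ κ) * (16 / 15) :=
    mul_le_mul_of_nonneg_left a2 (by positivity)
  have b3 : m * (2 * 13.6 / 100 ^ κ) * ∑ k ∈ range K, (k : ℝ) / 16 ^ k ≤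
      (m : ℝ) * (2 * 13.6 / 100 ^ κ) * (16 / 225) :=
    mul_le_mul_of_nonneg_left a3 (by positivity)
  have k1 := key κ hκ
  have k2 : (2 * (22.1 + (κ : ℝ)) / 100 ^ κ) * (16 / 15) + (2 * 13.6 / 100 ^ κ) * (16 / 225) ≤
      1 / 100 := by
    have : (2 * (22.1 + (κ : ℝ)) / 100 ^ κ) * (16 / 15) + (2 * 13.6 / 100 ^ κ) * (16 / 225) =
        (2 * ((22.1 + κ) * (16 / 15) + 13.6 * (16 / 225))) / 100 ^ κ := by
      field_simp
    rw [this, div_le_div_iff₀ hp (by norm_num)]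
    have hk : (0 : ℝ) ≤ κ := Nat.cast_nonneg κ
    nlinarith [k1]
  have k3 : (m : ℝ) * (2 * (22.1 + κ) / 100 ^ κ) * (16 / 15) + m * (2 * 13.6 / 100 ^ κ) * (16 / 225)
      ≤ m * (1 / 100) := by
    have := mul_le_mul_of_nonneg_left k2 hm
    linarith
  linarith

end Pool.Agent.U898.GSP.NUM
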