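import Pool.Agent.Q98.SPN.Stm

namespace Pool.Agent.U898.GSP.TRG

open Pool.Agent.Q98.SPN

theorem t_TRG : S_TRG := by
  intro G _ _ a
  classical
  rw [LinearMap.trace_eq_matrix_trace ℂ (MonoidAlgebra.basis G ℂ)]
  unfold Matrix.trace
  have h : ∀ g : G, (Matrix.diag ((LinearMap.toMatrix (MonoidAlgebra.basis G ℂ)
      (MonoidAlgebra.basis G ℂ)) (LinearMap.mulLeft ℂ a)) g) = a.coeff 1 := by
    intro g
    rw [Matrix.diag_apply, LinearMap.toMatrix_apply]
    have h1 : (MonoidAlgebra.basis G ℂ) g = MonoidAlgebra.single g 1 := by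
      simp
    rw [h1]
    show (a * MonoidAlgebra.single g (1 : ℂ)).coeff g = a.coeff 1
    simp
  rw [Finset.sum_congr rfl (fun g _ => h g)]
  simp

end Pool.Agent.U898.GSP.TRG
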